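import Pool.Agent.Lib.MP_11cd85_al.Fox

/-!
# The Fox derivative as a sum over the occurrences of a generator
-/

set_option autoImplicit false

namespace Pool.Agent.Lib.MP_11cd85_al.UPR

open MonoidAlgebra

/-- The Fox prefix at the `i`-th letter. -/
def prefixAt {α : Type} (L : List (α × Bool)) (i : Fin L.length) : FreeGroup α :=
  FreeGroup.mk (if (L.get i).2 then L.take i else L.take (i + 1))

/-- The sign of a letter. -/
def sgn (b : Bool) : ℤ := if b then 1 else -1

variable {X Γ : Type} [Group Γ] (q : FreeGroup X →* Γ)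

theorem fox_one (x : X) : fox q x 1 = 0 := by
  have h := fox_mul q x 1 1
  rw [mul_one, map_one, ← MonoidAlgebra.one_def, one_mul] at h
  exact left_eq_add.1 h

theorem fox_inv (x : X) (w : FreeGroup X) :
    fox q x w⁻¹ = - (single (q w)⁻¹ 1 * fox q x w) := by
  have h := fox_mul q x w⁻¹ w
  rw [inv_mul_cancel, fox_one, map_inv] at h
  exact eq_neg_of_add_eq_zero_left h.symm

theorem prefixAt_zero {α : Type} (a : α × Bool) (L : List (α × Bool)) :
    prefixAt (a :: L) ⟨0, Nat.succ_pos _⟩ = if a.2 then 1 else FreeGroup.mk [a] := by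
  unfold prefixAt
  by_cases h : a.2
  · simp [h]
    rfl
  · simp [h]

theorem prefixAt_succ {α : Type} (a : α × Bool) (L : List (α × Bool)) (i : Fin L.length) :
    prefixAt (a :: L) i.succ = FreeGroup.mk [a] * prefixAt L i := by
  unfold prefixAt
  rw [FreeGroup.mul_mk]
  simp only [List.length_cons, Fin.val_succ, List.get_cons_succ', List.take_succ_cons]
  split_ifs <;> rfl

open scoped Classical in
theorem fox_mk (x : X) (L : List (X × Bool)) :
    fox q x (FreeGroup.mk L) =
      ∑ i : Fin L.length, if (L.get i).1 = x then single (q (prefixAt L i)) (sgn (L.get i).2) else 0 := by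
  induction L with
  | nil => exact fox_one q x
  | cons a L ih =>
    have h1 : FreeGroup.mk (a :: L) = FreeGroup.mk [a] * FreeGroup.mk L := by
      rw [FreeGroup.mul_mk]
      rfl
    rw [h1, fox_mul, ih]
    refine Eq.trans ?_ (Fin.sum_univ_succ (n := L.length) _).symm
    congr 1
    · have h2 : prefixAt (a :: L) 0 = if a.2 then 1 else FreeGroup.mk [a] := prefixAt_zero a L
      rw [h2]
      change fox q x (FreeGroup.mk [a]) = if a.1 = x then _ else 0
      obtain ⟨y, b⟩ := a
      cases b with
      | true =>
        change fox q x (FreeGroup.of y) = _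
        rw [fox_of]
        simp [sgn, MonoidAlgebra.one_def]
      | false =>
        have h3 : FreeGroup.mk [(y, false)] = (FreeGroup.of y)⁻¹ := rfl
        rw [h3, fox_inv, fox_of]
        by_cases hy : y = x
        · simp [hy, sgn, MonoidAlgebra.one_def, MonoidAlgebra.single_neg]
        · simp [hy]
    · rw [Finset.mul_sum]
      apply Finset.sum_congr rfl
      intro i _
      rw [prefixAt_succ, map_mul]
      simp only [List.get_cons_succ']
      split_ifs
      · rw [MonoidAlgebra.single_mul_single, one_mul]
      · rw [mul_zero]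

open scoped Classical in
theorem coeff_fox_mk (x : X) (L : List (X × Bool)) (g : Γ) :
    (fox q x (FreeGroup.mk L)).coeff g =
      ∑ i : Fin L.length, if (L.get i).1 = x ∧ q (prefixAt L i) = g then sgn (L.get i).2 else 0 := by
  rw [fox_mk, coeff_sum, Finsupp.finsetSum_apply]
  apply Finset.sum_congr rfl
  intro i _
  by_cases h1 : (L.get i).1 = x
  · rw [if_pos h1, coeff_single, Finsupp.single_apply]
    by_cases h2 : q (prefixAt L i) = g
    · rw [if_pos h2, if_pos ⟨h1, h2⟩]
    · rw [if_neg h2, if_neg (fun h => h2 h.2)]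
  · rw [if_neg h1, if_neg (fun h => h1 h.1)]
    rfl

end Pool.Agent.Lib.MP_11cd85_al.UPR
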