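import Pool.Agent.Lib.MP_11cd85_al.Mg.G003
import Pool.Agent.Lib.MP_11cd85_al.UPR.Occ
import Pool.Agent.Lib.MP_11cd85_al.Res
import Pool.Agent.Lib.MP_11cd85_al.Mal

/-!
# Reduction modulo a prime
-/

set_option autoImplicit false

namespace Pool.Agent.Lib.MP_11cd85_al.UPR

open MonoidAlgebra

theorem coeff_el {R G : Type} [CommRing R] (c : G → R) (A : Finset G) (g : G) [Decidable (g ∈ A)] :
    (el c A).coeff g = if g ∈ A then c g else 0 := by
  classical
  unfold el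
  rw [coeff_sum, Finsupp.finsetSum_apply]
  split_ifs with h
  · rw [Finset.sum_eq_single g]
    · rw [coeff_single, Finsupp.single_eq_same]
    · intro b _ hb
      rw [coeff_single, Finsupp.single_apply, if_neg hb]
    · intro h'
      exact absurd h h'
  · apply Finset.sum_eq_zero
    intro b hb
    rw [coeff_single, Finsupp.single_apply, if_neg]
    rintro rfl
    exact h hb

variable {G : Type} [Group G]

/-- A primitive annihilator. -/
theorem primitive (p : ℕ) (hp : p = 0 ∨ p.Prime) (δ : MonoidAlgebra ℤ G) (g₀ : G) :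
    ∀ (n : ℕ) (u : MonoidAlgebra ℤ G), u * δ = 0 → u.coeff g₀ ≠ 0 → (u.coeff g₀).natAbs ≤ n →
      ∃ v : MonoidAlgebra ℤ G, v * δ = 0 ∧ mapRingHom G (Int.castRingHom (ZMod p)) v ≠ 0 := by
  intro n
  induction n with
  | zero =>
    intro u _ h1 h2
    exact absurd (Int.natAbs_eq_zero.1 (Nat.le_zero.1 h2)) h1
  | succ n ih =>
    intro u hu h1 h2
    by_cases h : mapRingHom G (Int.castRingHom (ZMod p)) u = 0
    · have h3 : ∀ g, (p : ℤ) ∣ u.coeff g := by
        intro g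
        have h4 : (mapRingHom G (Int.castRingHom (ZMod p)) u).coeff g = 0 := by rw [h]; rfl
        rw [coeff_mapRingHom] at h4
        exact (ZMod.intCast_zmod_eq_zero_iff_dvd _ _).1 h4
      rcases hp with rfl | hp
      · exfalso
        apply h1
        have := h3 g₀
        rwa [Nat.cast_zero, zero_dvd_iff] at this
      · have hp0 : (p : ℤ) ≠ 0 := by exact_mod_cast hp.ne_zero
        let v : MonoidAlgebra ℤ G :=
          ofCoeff (u.coeff.mapRange (fun z => z / (p : ℤ)) (Int.zero_ediv _))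
        have hv : ∀ g, v.coeff g = u.coeff g / (p : ℤ) := fun g => rfl
        have huv : (p : ℤ) • v = u := by
          apply MonoidAlgebra.ext
          apply Finsupp.ext
          intro g
          rw [coeff_smul_apply, hv, smul_eq_mul, Int.mul_ediv_cancel' (h3 g)]
        have hv0 : v * δ = 0 := by
          have h4 : (p : ℤ) • (v * δ) = 0 := by rw [← smul_mul_assoc, huv, hu]
          apply MonoidAlgebra.ext
          apply Finsupp.ext
          intro g
          have h5 : ((p : ℤ) • (v * δ)).coeff g = 0 := by rw [h4]; rfl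
          rw [coeff_smul_apply, smul_eq_mul] at h5
          exact (mul_eq_zero.1 h5).resolve_left hp0
        have h6 : (p : ℤ) * v.coeff g₀ = u.coeff g₀ := by
          rw [hv, Int.mul_ediv_cancel' (h3 g₀)]
        have h7 : v.coeff g₀ ≠ 0 := by
          intro h8
          rw [h8, mul_zero] at h6
          exact h1 h6.symm
        have h8 : (u.coeff g₀).natAbs = p * (v.coeff g₀).natAbs := by
          rw [← h6, Int.natAbs_mul, Int.natAbs_natCast]
        have h9 : 0 < (v.coeff g₀).natAbs := Int.natAbs_pos.2 h7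
        apply ih v hv0 h7
        have h10 := hp.two_le
        nlinarith
    · exact ⟨u, hu, h⟩

theorem exists_mod (p : ℕ) (hp : p = 0 ∨ p.Prime) (δ u : MonoidAlgebra ℤ G) (hu : u ≠ 0)
    (h : u * δ = 0) (hδ : ∃ g, ((δ.coeff g : ℤ) : ZMod p) ≠ 0) :
    ∃ S : Finset G, S.Nonempty ∧ (∀ a ∈ S, ((δ.coeff a : ℤ) : ZMod p) ≠ 0) ∧
      ∃ u : MonoidAlgebra (ZMod p) G, u ≠ 0 ∧ u * el (fun g => ((δ.coeff g : ℤ) : ZMod p)) S = 0 := by
  classical
  obtain ⟨g₀, hg₀⟩ : ∃ g, u.coeff g ≠ 0 := by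
    by_contra hc
    push Not at hc
    exact hu (MonoidAlgebra.ext (Finsupp.ext hc))
  obtain ⟨v, hv, hv0⟩ := primitive p hp δ g₀ _ u h hg₀ le_rfl
  have hS : ∀ g, g ∈ δ.coeff.support.filter (fun g => ((δ.coeff g : ℤ) : ZMod p) ≠ 0) ↔
      ((δ.coeff g : ℤ) : ZMod p) ≠ 0 := by
    intro g
    rw [Finset.mem_filter, Finsupp.mem_support_iff]
    refine ⟨fun h => h.2, fun h => ⟨fun h' => h ?_, h⟩⟩
    rw [h', Int.cast_zero]
  refine ⟨δ.coeff.support.filter (fun g => ((δ.coeff g : ℤ) : ZMod p) ≠ 0), ?_, ?_,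
    mapRingHom G (Int.castRingHom (ZMod p)) v, hv0, ?_⟩
  · obtain ⟨g, hg⟩ := hδ
    exact ⟨g, (hS g).2 hg⟩
  · intro a ha
    exact (hS a).1 ha
  · have h1 : el (fun g => ((δ.coeff g : ℤ) : ZMod p))
        (δ.coeff.support.filter (fun g => ((δ.coeff g : ℤ) : ZMod p) ≠ 0)) =
        mapRingHom G (Int.castRingHom (ZMod p)) δ := by
      apply MonoidAlgebra.ext
      apply Finsupp.ext
      intro g
      rw [coeff_el, coeff_mapRingHom]
      split_ifs with h2
      · rfl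
      · rw [hS, not_not] at h2
        exact h2.symm
    rw [h1, ← map_mul, hv, map_zero]

theorem aug_eq_sum (a : MonoidAlgebra ℤ G) : aug G a = ∑ g ∈ a.coeff.support, a.coeff g := by
  have h := MonoidAlgebra.lift_apply (R := ℤ) (1 : G →* ℤ) a
  unfold aug
  rw [h]
  apply Finset.sum_congr rfl
  intro g _
  simp

theorem exists_coeff (p : ℕ) (a : MonoidAlgebra ℤ G) (h : ((aug G a : ℤ) : ZMod p) ≠ 0) :
    ∃ g, ((a.coeff g : ℤ) : ZMod p) ≠ 0 := by
  by_contra hc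
  push Not at hc
  apply h
  rw [aug_eq_sum, Int.cast_sum]
  exact Finset.sum_eq_zero fun g _ => hc g

section main

variable {X₀ ι₀ : Type} [Fintype X₀] [Fintype ι₀] (rs₀ : ι₀ → FreeGroup X₀)
  (r : FreeGroup (Option X₀))

/-- **Main theorem.** -/
theorem main (hP : Asph rs₀)
    (hinj : ∀ w : FreeGroup X₀, FreeGroup.map some w ∈ nc (relQ rs₀ r) → w ∈ nc rs₀)
    (htf : ∀ (w : FreeGroup (Option X₀)) (k : ℕ), 0 < k → w ^ k ∈ nc (relQ rs₀ r) →
      w ∈ nc (relQ rs₀ r))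
    (hQ : ¬ Asph (relQ rs₀ r)) (p : ℕ) (hp : p = 0 ∨ p.Prime) (c : Gp (relQ rs₀ r) → ℤ)
    (hcc : ∀ g, (fox (pr (relQ rs₀ r)) none r).coeff g = c g)
    (hc : (((exs X₀ r).toAdd : ℤ) : ZMod p) ≠ 0 ∨ ∃ g, ((c g : ℤ) : ZMod p) ≠ 0) :
    ∃ A : Finset (Gp (relQ rs₀ r)), 3 ≤ A.card ∧ (∀ a ∈ A, ((c a : ℤ) : ZMod p) ≠ 0) ∧
      (∀ (Λ : Type) [Group Λ] [UniqueProds Λ] (π : diff A →* Λ), π = 1) ∧
      ∀ a₀ : A,
        (∃ v : MonoidAlgebra (ZMod p) (diff A), v ≠ 0 ∧
          v * nel (fun g => ((c g : ℤ) : ZMod p)) A a₀ = 0) ∧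
        ∀ v : MonoidAlgebra (ZMod p) (diff A),
          v * nel (fun g => ((c g : ℤ) : ZMod p)) A a₀ = 0 →
          ∀ (Λ : Type) [Group Λ] (π : diff A →* Λ), π ≠ 1 →
            ∀ d ∈ v.coeff.support, ∀ a : A, ∃ d' ∈ v.coeff.support, ∃ a' : A,
              π (d' * dd a₀ a') = π (d * dd a₀ a) ∧ π d' ≠ π d := by
  have hdom : IsDomain (ZMod p) := by
    rcases hp with rfl | hp
    · exact inferInstanceAs (IsDomain ℤ)
    · have := Fact.mk hp
      infer_instance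
  have hcf : (fun g => (((fox (pr (relQ rs₀ r)) none r).coeff g : ℤ) : ZMod p)) =
      fun g => ((c g : ℤ) : ZMod p) := funext fun g => by rw [hcc]
  have hc' : ∃ g, (((fox (pr (relQ rs₀ r)) none r).coeff g : ℤ) : ZMod p) ≠ 0 := by
    rcases hc with hc | ⟨g, hc⟩
    · apply exists_coeff
      rw [aug_fox]
      exact hc
    · refine ⟨g, ?_⟩
      rw [hcc]
      exact hc
  obtain ⟨u, hu0, hu⟩ : ∃ u : MonoidAlgebra ℤ (Gp (relQ rs₀ r)), u ≠ 0 ∧
      u * fox (pr (relQ rs₀ r)) none r = 0 := by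
    by_contra hcon
    apply hQ
    apply asph_of_fox rs₀ r hP hinj
    intro a ha
    by_contra ha0
    exact hcon ⟨a, ha0, ha⟩
  obtain ⟨S, hS, hS0, hS1⟩ := exists_mod p hp _ u hu0 hu hc'
  have htf' : ∀ (g : Gp (relQ rs₀ r)) (k : ℕ), 0 < k → g ^ k = 1 → g = 1 := by
    intro g k hk hg
    obtain ⟨w, rfl⟩ := QuotientGroup.mk'_surjective (nc (relQ rs₀ r)) g
    rw [← map_pow] at hg
    exact (QuotientGroup.eq_one_iff w).2 (htf w k hk ((QuotientGroup.eq_one_iff _).1 hg))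
  rw [hcf] at hS1
  have hS0' : ∀ a ∈ S, ((c a : ℤ) : ZMod p) ≠ 0 := fun a ha => by
    rw [← hcc]
    exact hS0 a ha
  obtain ⟨A, hA1, hA2, hA3⟩ := exists_min htf' _ S hS hS0' hS1
  refine ⟨A, hA2, fun a ha => hS0' a (hA1 ha), ?_, hA3⟩
  intro Λ _ _ π
  obtain ⟨a, ha⟩ : A.Nonempty := Finset.card_pos.1 (by omega)
  obtain ⟨⟨v, hv, hv0⟩, h⟩ := hA3 ⟨a, ha⟩
  exact eq_one_of_uniqueProds ⟨a, ha⟩ v hv π (h v hv0 Λ π)

end main

end Pool.Agent.Lib.MP_11cd85_al.UPR
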